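import Pool.Agent.Y669.TA.LIdl

/-! The first-order theory of the class of all lattices of ℓ-ideals of ℓ-groups is not definable in
second-order arithmetic. Stronger form of `LIdealTheory`. -/

namespace Pool.Agent.Results.MP_411a76_lc.NotAnalytical

open FirstOrder FirstOrder.Language
open Pool.Agent.Results.MP_411a76_lc.LIdealTheory Pool.Agent.Y669.TA.SOA

universe u

/-- The theory `T`: the set of the Goedel numbers of the first-order sentences in the language of
lattices that hold in the lattice of ℓ-ideals of every ℓ-group (in the universe `u`). -/
def Theory (n : ℕ) : Prop :=
  ∃ σ : Lat.Sentence, code σ = n ∧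
    ∀ (G : Type u) [Group G] [Lattice G] [MulLeftMono G] [MulRightMono G], LIdeal G ⊨ σ

/-- Every set of natural numbers that is definable in second-order arithmetic is many-one reducible
to the first-order theory of the lattices of ℓ-ideals of ℓ-groups. Hence this theory is not
definable in second-order arithmetic (it lies in no level of the analytical hierarchy), in
particular it is not computable. -/
theorem result :
    (∀ A : ℕ → Prop, Analytical A → A ≤₀ Theory.{u}) ∧ ¬ Analytical Theory.{u} ∧
    ¬ ComputablePred Theory.{u} :=
  ⟨fun _ hA => Pool.Agent.Y669.TA.LIdl.reducible hA,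
    not_analytical fun _ hA => Pool.Agent.Y669.TA.LIdl.reducible hA,
    fun h => not_analytical (fun _ hA => Pool.Agent.Y669.TA.LIdl.reducible hA)
      (Analytical.of_computable h)⟩

end Pool.Agent.Results.MP_411a76_lc.NotAnalytical
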